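import Pool.Agent.BEL.StmtsE

/-! Squad BEL, module COO: the equations of the coordinates. -/

namespace Pool.Agent.BEL.H89

open MeasureTheory Filter Topology Set
open scoped InnerProductSpace ENNReal NNReal

theorem P1_inj {H : Type} [NormedAddCommGroup H] [InnerProductSpace ℝ H] (h : H) :
    P1 (inj h) = 0 := rfl

theorem P2_inj {H : Type} [NormedAddCommGroup H] [InnerProductSpace ℝ H] (h : H) :
    P2 (inj h) = h := rfl

theorem coo : CooStmt := by
  intro H _ _ _ κ b om W F V Z j t hG hZ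
  obtain ⟨f, hf⟩ : ∃ f, f = F (P2 (W t (Z t))) := ⟨_, rfl⟩
  have hz := hZ.eq t
  rw [← hf] at hz
  have hp : HasDerivAt (fun t => ⟪b j, P1 (Z t)⟫_ℝ) (Real.sin (om j * t) * ⟪b j, f⟫_ℝ) t := by
    have h1 := ((innerSL ℝ (b j)).comp (P1 (H := H))).hasFDerivAt.comp_hasDerivAt t hz
    have h2 : ((innerSL ℝ (b j)).comp (P1 (H := H))) (-(W (-t) (inj f))) =
        Real.sin (om j * t) * ⟪b j, f⟫_ℝ := by
      rw [map_neg]
      have h3 := hG.c1 (-t) (inj f) j
      rw [P1_inj, P2_inj, inner_zero_right] at h3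
      have h4 : ((innerSL ℝ (b j)).comp (P1 (H := H))) (W (-t) (inj f)) =
          ⟪b j, P1 (W (-t) (inj f))⟫_ℝ := rfl
      rw [h4, h3, mul_neg, Real.sin_neg]
      ring
    rw [h2] at h1
    exact h1
  have hq : HasDerivAt (fun t => ⟪b j, P2 (Z t)⟫_ℝ) (-(Real.cos (om j * t) * ⟪b j, f⟫_ℝ)) t := by
    have h1 := ((innerSL ℝ (b j)).comp (P2 (H := H))).hasFDerivAt.comp_hasDerivAt t hz
    have h2 : ((innerSL ℝ (b j)).comp (P2 (H := H))) (-(W (-t) (inj f))) =
        -(Real.cos (om j * t) * ⟪b j, f⟫_ℝ) := by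
      rw [map_neg]
      have h3 := hG.c2 (-t) (inj f) j
      rw [P1_inj, P2_inj, inner_zero_right] at h3
      have h4 : ((innerSL ℝ (b j)).comp (P2 (H := H))) (W (-t) (inj f)) =
          ⟪b j, P2 (W (-t) (inj f))⟫_ℝ := rfl
      rw [h4, h3, mul_neg, Real.cos_neg]
      ring
    rw [h2] at h1
    exact h1
  have hc : HasDerivAt (fun t => Real.cos (om j * t)) (-Real.sin (om j * t) * (om j)) t := by
    have h1 : HasDerivAt (fun t : ℝ => om j * t) (om j) t := by
      simpa using (hasDerivAt_id t).const_mul (om j)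
    exact h1.cos
  have hs : HasDerivAt (fun t => Real.sin (om j * t)) (Real.cos (om j * t) * (om j)) t := by
    have h1 : HasDerivAt (fun t : ℝ => om j * t) (om j) t := by
      simpa using (hasDerivAt_id t).const_mul (om j)
    exact h1.sin
  have e1 : (fun t => ⟪b j, P1 (W t (Z t))⟫_ℝ) = fun t => Real.cos (om j * t) * ⟪b j, P1 (Z t)⟫_ℝ +
      Real.sin (om j * t) * ⟪b j, P2 (Z t)⟫_ℝ := funext fun t => hG.c1 t (Z t) j
  have e2 : (fun t => ⟪b j, P2 (W t (Z t))⟫_ℝ) = fun t => -Real.sin (om j * t) * ⟪b j, P1 (Z t)⟫_ℝ +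
      Real.cos (om j * t) * ⟪b j, P2 (Z t)⟫_ℝ := funext fun t => hG.c2 t (Z t) j
  rw [e1, e2, ← hf, hG.c1, hG.c2]
  refine ⟨?_, ?_⟩
  · refine ((hc.mul hp).add (hs.mul hq)).congr_deriv ?_
    ring
  · refine ((hs.neg.mul hp).add (hc.mul hq)).congr_deriv ?_
    have h5 := Real.sin_sq_add_cos_sq (om j * t)
    have h6 : (-fun t => Real.sin (om j * t)) t = -Real.sin (om j * t) := rfl
    rw [h6]
    linear_combination (-⟪b j, f⟫_ℝ) * h5

end Pool.Agent.BEL.H89
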